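import Pool.Agent.W_7d29a1_NV.Dens89

/-!
Non-tightness: the centering of the free energy.
-/

namespace Pool.Agent.W_7d29a1_NT6

open MeasureTheory ProbabilityTheory Filter Topology Pool.Agent.W_MP_7d29a1_pr
  Pool.Agent.W_7d29a1_h46 Pool.Agent.W_7d29a1_h46u Pool.Agent.W_7d29a1_NV

variable {d : ℕ}

/-- The free energies, centred by `a`, are tight. -/
def TightX (ρ : Measure ℝ) (β : ℝ) (h : Vec d) (a : ℕ → ℝ) : Prop :=
  ∀ δ : ℝ, 0 < δ → ∃ M : ℝ, ∀ n : ℕ, (law d ρ).real {η | M < |X β h η n - a n|} ≤ δ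

variable {ρ : Measure ℝ} [IsProbabilityMeasure ρ]

theorem mean6 (hd : 0 < d) (hρ : EM ρ) (β : ℝ) :
    ∃ C : ℝ, 0 < C ∧ ∀ (h : Vec d) (n : ℕ),
      Integrable (fun η => |X β h η n - A ρ β h n|) (law d ρ) ∧
      ∫ η, |X β h η n - A ρ β h n| ∂(law d ρ) ≤ C * Real.sqrt n := by
  obtain ⟨C, hC0, hC⟩ := momU (ρ := ρ) hd hρ β 1
  refine ⟨C + 1, by linarith, fun h n => ?_⟩
  rcases Nat.eq_zero_or_pos n with hn | hn
  · subst hn
    have h1 : ∀ η : Env d, X β h η 0 = 0 := by
      intro η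
      unfold X
      rw [Z_zero, Real.log_one]
    have h2 : A ρ β h 0 = 0 := by
      unfold A
      simp only [h1]
      simp
    simp only [h1, h2]
    simp
  · obtain ⟨h1, h2⟩ := hC h n hn
    have e : (n : ℝ) ^ ((1 / 2 : ℝ) * (1 : ℕ)) = Real.sqrt n := by
      rw [Nat.cast_one, mul_one, ← Real.sqrt_eq_rpow]
    rw [e] at h2
    simp only [pow_one] at h1 h2
    refine ⟨h1, h2.trans ?_⟩
    have := Real.sqrt_nonneg (n : ℝ)
    nlinarith

/-- The lower bound of the increments of a centering. -/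
theorem low6 (hd : 0 < d) (hρ : EM ρ) (β : ℝ) (h : Vec d) {a : ℕ → ℝ} {M : ℝ}
    (hM : ∀ n, (law d ρ).real {η | M < |X β h η n - a n|} ≤ 1 / 4) {c : ℝ} (hc0 : 0 < c)
    (n m : ℕ) (hc : ∫ η, |X β h η m - A ρ β h m| ∂(law d ρ) ≤ c) :
    A ρ β h m - 8 * c - 2 * M ≤ a (n + m) - a n := by
  set W : Env d → ℝ := fun η => ∑ s : Fin n → Step d,
    FreeU_p β h n s η * X β h (sh n (pos s n) η) m with hW
  set D : Env d → ℝ := fun η => ∑ s : Fin n → Step d,
    FreeU_p β h n s η * |X β h (sh n (pos s n) η) m - A ρ β h m| with hD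
  have hX0 : Measurable fun η : Env d => |X β h η m - A ρ β h m| :=
    ((measurable_X β h m).sub_const _).abs
  have hXi : Integrable (fun η : Env d => |X β h η m - A ρ β h m|) (law d ρ) :=
    ((concU hd hρ β h m).1.sub (integrable_const _)).abs
  have hXs : ∀ y : Site d, Integrable (fun η => |X β h (sh n y η) m - A ρ β h m|) (law d ρ) :=
    fun y => ((mp_sh n y).integrable_comp hX0.aestronglyMeasurable).2 hXi
  have hp : ∀ s : Fin n → Step d, Integrable (FreeU_p β h n s) (law d ρ) := fun s => by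
    refine (integrable_const (1 : ℝ)).mono' (FreeU_meas β h n s).aestronglyMeasurable
      (Filter.Eventually.of_forall fun η => ?_)
    rw [Real.norm_eq_abs, abs_of_nonneg (FreeU_nonneg hd β h n s η)]
    exact FreeU_le_one hd β h n s η
  have hpX : ∀ s : Fin n → Step d,
      Integrable (fun η => FreeU_p β h n s η * |X β h (sh n (pos s n) η) m - A ρ β h m|)
        (law d ρ) := fun s => by
    refine (hXs (pos s n)).bdd_mul (c := 1) (FreeU_meas β h n s).aestronglyMeasurable
      (Filter.Eventually.of_forall fun η => ?_)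
    rw [Real.norm_eq_abs, abs_of_nonneg (FreeU_nonneg hd β h n s η)]
    exact FreeU_le_one hd β h n s η
  have hDi : Integrable D (law d ρ) := integrable_finsetSum _ fun s _ => hpX s
  have hD0 : ∀ η, 0 ≤ D η := fun η => Finset.sum_nonneg fun s _ =>
    mul_nonneg (FreeU_nonneg hd β h n s η) (abs_nonneg _)
  have hDI : ∫ η, D η ∂(law d ρ) ≤ c := by
    refine le_trans (le_of_eq ?_) hc
    rw [hD, integral_finsetSum _ fun s _ => hpX s]
    have h1 : ∀ s : Fin n → Step d, ∫ η, FreeU_p β h n s η *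
        |X β h (sh n (pos s n) η) m - A ρ β h m| ∂(law d ρ) =
        (∫ η, FreeU_p β h n s η ∂(law d ρ)) * ∫ η, |X β h η m - A ρ β h m| ∂(law d ρ) := by
      intro s
      have h2 := integral_indep (ρ := ρ) {p : ℕ × Site d | p.1 ≤ n} (F := FreeU_p β h n s)
        (G := fun η => |X β h (sh n (pos s n) η) m - A ρ β h m|) (FreeU_meas β h n s)
        (hX0.comp (measurable_sh n (pos s n))) (FreeU_dep β h n s)
        (fun η η' hη => by
          have := FreeU_dep2 β h n m (pos s n) hη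
          simp only at this ⊢
          rw [this])
      rw [h2, integral_sh n (pos s n) hX0]
    rw [Finset.sum_congr rfl fun s _ => h1 s, ← Finset.sum_mul,
      ← integral_finsetSum _ fun s _ => hp s]
    simp only [FreeU_sum hd]
    simp
  have hWD : ∀ η, |W η - A ρ β h m| ≤ D η := by
    intro η
    have e : W η - A ρ β h m = ∑ s : Fin n → Step d,
        FreeU_p β h n s η * (X β h (sh n (pos s n) η) m - A ρ β h m) := by
      simp only [hW, mul_sub, Finset.sum_sub_distrib]
      rw [← Finset.sum_mul, FreeU_sum hd, one_mul]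
    rw [e]
    refine (Finset.abs_sum_le_sum_abs _ _).trans (le_of_eq ?_)
    refine Finset.sum_congr rfl fun s _ => ?_
    rw [abs_mul, abs_of_nonneg (FreeU_nonneg hd β h n s η)]
  have hmk := mul_meas_ge_le_integral_of_nonneg (μ := law d ρ) (Eventually.of_forall hD0) hDi
    (8 * c)
  have hB3 : (law d ρ).real {η | 8 * c ≤ D η} ≤ 1 / 8 := by
    have h1 : 8 * c * (law d ρ).real {η | 8 * c ≤ D η} ≤ c := hmk.trans hDI
    by_contra hcon
    rw [not_le] at hcon
    have := mul_lt_mul_of_pos_left hcon (show (0 : ℝ) < 8 * c by positivity)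
    linarith
  have hne : ∃ η : Env d, η ∉ ({η | M < |X β h η n - a n|} ∪
      {η | M < |X β h η (n + m) - a (n + m)|}) ∪ {η | 8 * c ≤ D η} := by
    by_contra hcon
    push Not at hcon
    have h1 : ({η | M < |X β h η n - a n|} ∪
      {η | M < |X β h η (n + m) - a (n + m)|}) ∪ {η | 8 * c ≤ D η} = (Set.univ : Set (Env d)) :=
      Set.eq_univ_of_forall hcon
    have h2 := measureReal_union_le (μ := law d ρ) ({η | M < |X β h η n - a n|} ∪
      {η | M < |X β h η (n + m) - a (n + m)|}) {η | 8 * c ≤ D η}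
    have h3 := measureReal_union_le (μ := law d ρ) {η | M < |X β h η n - a n|}
      {η | M < |X β h η (n + m) - a (n + m)|}
    rw [h1, probReal_univ] at h2
    linarith [hM n, hM (n + m)]
  obtain ⟨η, hη⟩ := hne
  simp only [Set.mem_union, Set.mem_ofPred_eq, not_or, not_lt, not_le] at hη
  obtain ⟨⟨h1, h2⟩, h3⟩ := hη
  have h4 := FreeU_pt hd β h n m η
  have h5 : X β h η n + W η ≤ X β h η (n + m) := h4
  have h6 := abs_le.1 (hWD η)
  have h7 := abs_le.1 h1
  have h8 := abs_le.1 h2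
  linarith [h6.1, h7.1, h8.2]

/-- A centering is close to the mean. -/
theorem near6 (hd : 0 < d) (hρ : EM ρ) (β : ℝ) (h : Vec d) {a : ℕ → ℝ} {M : ℝ}
    (hM : ∀ n, (law d ρ).real {η | M < |X β h η n - a n|} ≤ 1 / 4) {c : ℝ} (hc0 : 0 < c)
    (n : ℕ) (hc : ∫ η, |X β h η n - A ρ β h n| ∂(law d ρ) ≤ c) :
    |a n - A ρ β h n| ≤ M + 8 * c := by
  have hXi : Integrable (fun η : Env d => |X β h η n - A ρ β h n|) (law d ρ) :=
    ((concU hd hρ β h n).1.sub (integrable_const _)).abs
  have hmk := mul_meas_ge_le_integral_of_nonneg (μ := law d ρ)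
    (Eventually.of_forall fun η => abs_nonneg (X β h η n - A ρ β h n)) hXi (8 * c)
  have hB3 : (law d ρ).real {η | 8 * c ≤ |X β h η n - A ρ β h n|} ≤ 1 / 8 := by
    have h1 : 8 * c * (law d ρ).real {η | 8 * c ≤ |X β h η n - A ρ β h n|} ≤ c := hmk.trans hc
    by_contra hcon
    rw [not_le] at hcon
    have := mul_lt_mul_of_pos_left hcon (show (0 : ℝ) < 8 * c by positivity)
    linarith
  have hne : ∃ η : Env d, η ∉ ({η | M < |X β h η n - a n|} ∪
      {η | 8 * c ≤ |X β h η n - A ρ β h n|}) := by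
    by_contra hcon
    push Not at hcon
    have h1 : ({η | M < |X β h η n - a n|} ∪
      {η | 8 * c ≤ |X β h η n - A ρ β h n|}) = (Set.univ : Set (Env d)) :=
      Set.eq_univ_of_forall hcon
    have h2 := measureReal_union_le (μ := law d ρ) {η | M < |X β h η n - a n|}
      {η | 8 * c ≤ |X β h η n - A ρ β h n|}
    rw [h1, probReal_univ] at h2
    linarith [hM n]
  obtain ⟨η, hη⟩ := hne
  simp only [Set.mem_union, Set.mem_ofPred_eq, not_or, not_lt, not_le] at hη
  have e : a n - A ρ β h n = (X β h η n - A ρ β h n) - (X β h η n - a n) := by ring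
  rw [e]
  refine (abs_sub _ _).trans ?_
  linarith [hη.1, hη.2]

omit [IsProbabilityMeasure ρ] in
/-- Telescoping: nearly all increments are small, if all increments are almost large. -/
theorem densB6 {a : ℕ → ℝ} {L : ℝ} (hlim : Tendsto (fun n : ℕ => a n / n) atTop (𝓝 L)) {m : ℕ}
    {b δ : ℝ} (hb : 0 < b) (hδ : 0 < δ) (hlow : ∀ n, L * m - δ * b / 8 ≤ a (n + m) - a n) :
    ∃ N₀ : ℕ, ∀ N ≥ N₀, (((Finset.Ico N (2 * N)).filter fun n =>
      ¬ (a (n + m) - a n ≤ L * m + b / 4)).card : ℝ) ≤ δ * N := by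
  obtain ⟨κ, hκ⟩ : ∃ κ : ℝ, κ = δ * b / (40 * (m + 1)) := ⟨_, rfl⟩
  have hκ0 : 0 < κ := by
    rw [hκ]
    positivity
  have h1 : ∀ᶠ n : ℕ in atTop, L - κ < a n / n := hlim.eventually (lt_mem_nhds (by linarith))
  have h1' : ∀ᶠ n : ℕ in atTop, a n / n < L + κ := hlim.eventually (gt_mem_nhds (by linarith))
  obtain ⟨N1, hN1⟩ := eventually_atTop.1 (h1.and h1')
  refine ⟨max (max N1 m) 1, fun N hN => ?_⟩
  have hN1' : N1 ≤ N := (le_max_left _ _).trans ((le_max_left _ _).trans hN)
  have hNm : m ≤ N := (le_max_right _ _).trans ((le_max_left _ _).trans hN)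
  have hN0 : 1 ≤ N := (le_max_right _ _).trans hN
  have hlow' : ∀ k, N ≤ k → (k : ℝ) * (L - κ) ≤ a k ∧ a k ≤ (k : ℝ) * (L + κ) := by
    intro k hk
    have h2 := hN1 k (by omega)
    have h3 : (0 : ℝ) < (k : ℝ) := by
      have : 0 < k := by omega
      exact_mod_cast this
    rw [lt_div_iff₀ h3, div_lt_iff₀ h3] at h2
    exact ⟨by linarith [h2.1], by linarith [h2.2]⟩
  set S := (Finset.Ico N (2 * N)).filter fun n => ¬ (a (n + m) - a n ≤ L * m + b / 4) with hS
  have h4 : (S.card : ℝ) * (b / 4) ≤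
      ∑ n ∈ Finset.Ico N (2 * N), (a (n + m) - a n - (L * m - δ * b / 8)) := by
    calc (S.card : ℝ) * (b / 4) = ∑ _n ∈ S, b / 4 := by rw [Finset.sum_const, nsmul_eq_mul]
      _ ≤ ∑ n ∈ S, (a (n + m) - a n - (L * m - δ * b / 8)) := by
        refine Finset.sum_le_sum fun n hn => ?_
        have h5 := (Finset.mem_filter.1 hn).2
        push Not at h5
        have : 0 < δ * b := by positivity
        linarith
      _ ≤ _ := by
        refine Finset.sum_le_sum_of_subset_of_nonneg (Finset.filter_subset _ _) fun n _ _ => ?_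
        have := hlow n
        linarith
  have h5 : ∑ n ∈ Finset.Ico N (2 * N), (a (n + m) - a n - (L * m - δ * b / 8)) =
      ∑ j ∈ Finset.range m, (a (2 * N + j) - a (N + j)) - N * (L * m - δ * b / 8) := by
    rw [Finset.sum_sub_distrib, tele89 a N (2 * N) m (by omega), Finset.sum_const, Nat.card_Ico,
      nsmul_eq_mul]
    have : 2 * N - N = N := by omega
    rw [this]
  have h6 : ∑ j ∈ Finset.range m, (a (2 * N + j) - a (N + j)) ≤
      ∑ _j ∈ Finset.range m, ((N : ℝ) * L + κ * (5 * N)) := by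
    refine Finset.sum_le_sum fun j hj => ?_
    have hj' := Finset.mem_range.1 hj
    have e1 := (hlow' (2 * N + j) (by omega)).2
    have e2 := (hlow' (N + j) (by omega)).1
    have e3 : (j : ℝ) ≤ N := by exact_mod_cast (hj'.le.trans hNm)
    push_cast at e1 e2
    nlinarith
  rw [Finset.sum_const, Finset.card_range, nsmul_eq_mul] at h6
  have hNR : (1 : ℝ) ≤ N := by exact_mod_cast hN0
  have h7 : (m : ℝ) * (κ * (5 * N)) ≤ δ * b / 8 * N := by
    have e1 : κ * (40 * (m + 1)) = δ * b := by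
      rw [hκ]
      field_simp
    have e2 : (0 : ℝ) ≤ m := Nat.cast_nonneg m
    have e3 : κ * m * 40 ≤ δ * b := by nlinarith
    nlinarith
  have h8 : (S.card : ℝ) * (b / 4) ≤ δ * N * (b / 4) := by
    rw [h5] at h4
    nlinarith
  exact le_of_mul_le_mul_right h8 (by positivity)

open Classical in
/-- The choice of the length, for a centering. -/
theorem dens6 (hd : 0 < d) (hρ : EM ρ) (β : ℝ) (h : Vec d) {a : ℕ → ℝ}
    (ha : TightX ρ β h a) {C' δ : ℝ} (hC : 0 < C') (hδ : 0 < δ) :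
    ∃ b₁ : ℝ, ∀ b : ℝ, b₁ ≤ b → ∀ m : ℕ, (m : ℝ) ≤ C' * b → ∃ N₀ : ℕ, ∀ N : ℕ,
      N₀ ≤ N → (((Finset.Ico N (2 * N)).filter fun n =>
        ¬ (a (n + m) - a n ≤ lam ρ β h * m + b / 2)).card : ℝ) ≤ δ * N := by
  obtain ⟨M₀, hM₀⟩ := ha (1 / 4) (by norm_num)
  obtain ⟨M, hMd⟩ : ∃ M : ℝ, M = max M₀ 0 := ⟨_, rfl⟩
  have hM0 : 0 ≤ M := by rw [hMd]; exact le_max_right _ _
  have hM : ∀ n, (law d ρ).real {η | M < |X β h η n - a n|} ≤ 1 / 4 := fun n =>
    (measureReal_mono (fun η hη => by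
      have h1 : M < |X β h η n - a n| := hη
      have h2 : M₀ ≤ M := by rw [hMd]; exact le_max_left _ _
      exact lt_of_le_of_lt h2 h1)).trans (hM₀ n)
  obtain ⟨C, hC0, hCm⟩ := mean6 (ρ := ρ) hd hρ β
  -- the centering is linear
  have hlim : Tendsto (fun n : ℕ => a n / n) atTop (𝓝 (lam ρ β h)) := by
    have h1 : Tendsto (fun n : ℕ => a n / n - A ρ β h n / n) atTop (𝓝 0) := by
      have h2 : Tendsto (fun n : ℕ => M * (1 / (n : ℝ)) + 8 * C * (1 / Real.sqrt n)) atTop
          (𝓝 (M * 0 + 8 * C * 0)) := by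
        refine (tendsto_one_div_atTop_nhds_zero_nat.const_mul M).add (Tendsto.const_mul _ ?_)
        simp only [one_div]
        exact tendsto_inv_atTop_zero.comp
          (Real.tendsto_sqrt_atTop.comp tendsto_natCast_atTop_atTop)
      rw [mul_zero, mul_zero, add_zero] at h2
      refine squeeze_zero_norm' ?_ h2
      filter_upwards [eventually_ge_atTop 1] with n hn
      have hn0 : (0 : ℝ) < n := by exact_mod_cast hn
      have hs : 0 < Real.sqrt n := Real.sqrt_pos.2 hn0
      have h3 := near6 hd hρ β h hM (c := C * Real.sqrt n) (by positivity) n (hCm h n).2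
      rw [Real.norm_eq_abs, ← sub_div, abs_div, abs_of_pos hn0, div_le_iff₀ hn0]
      refine h3.trans (le_of_eq ?_)
      have h4 : Real.sqrt n * Real.sqrt n = n := Real.mul_self_sqrt hn0.le
      field_simp
      nlinarith
    have h2 := h1.add (tendsto_A hd hρ β h)
    simp only [sub_add_cancel, zero_add] at h2
    exact h2
  obtain ⟨C1, hC1⟩ := dmC89 (ρ := ρ) hd hρ β h (show (0 : ℝ) < δ / (16 * C') by positivity)
  -- the numbers
  obtain ⟨K, hK⟩ : ∃ K : ℝ, K = 8 * C * Real.sqrt C' := ⟨_, rfl⟩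
  have hK0 : 0 ≤ K := by rw [hK]; positivity
  refine ⟨max 1 (max (16 * (|C1| + 2 * M + 8 * C) / δ) ((16 * K / δ) ^ 2)), fun b hb m hm => ?_⟩
  have hb1 : 1 ≤ b := (le_max_left _ _).trans hb
  have hb2 : 16 * (|C1| + 2 * M + 8 * C) / δ ≤ b :=
    ((le_max_left _ _).trans (le_max_right _ _)).trans hb
  have hb3 : (16 * K / δ) ^ 2 ≤ b := ((le_max_right _ _).trans (le_max_right _ _)).trans hb
  rw [div_le_iff₀ hδ] at hb2
  have hb4 : 16 * K ≤ δ * Real.sqrt b := by
    have h1 : 16 * K / δ ≤ Real.sqrt b := Real.le_sqrt_of_sq_le hb3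
    rw [div_le_iff₀ hδ] at h1
    linarith
  have hsb : Real.sqrt b * Real.sqrt b = b := Real.mul_self_sqrt (by linarith)
  have hsm : Real.sqrt m ≤ Real.sqrt C' * Real.sqrt b := by
    rw [← Real.sqrt_mul hC.le]
    exact Real.sqrt_le_sqrt hm
  have h2 : δ / (16 * C') * m ≤ δ * b / 16 := by
    have e : δ / (16 * C') * (C' * b) = δ * b / 16 := by
      field_simp
    rw [← e]
    exact mul_le_mul_of_nonneg_left hm (by positivity)
  have hlow : ∀ n, lam ρ β h * m - δ * (2 * b) / 8 ≤ a (n + m) - a n := by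
    intro n
    have h3 := low6 hd hρ β h hM (c := C * Real.sqrt m + C) (by positivity) n m
      ((hCm h m).2.trans (by linarith))
    have h4 := hC1 m
    have h5 : 8 * (C * Real.sqrt m) ≤ δ * b / 16 := by
      have e1 : 8 * (C * Real.sqrt m) ≤ K * Real.sqrt b := by
        rw [hK]
        have := mul_le_mul_of_nonneg_left hsm (show 0 ≤ 8 * C by positivity)
        linarith
      have e2 : K * Real.sqrt b * 16 ≤ δ * b := by
        have := mul_le_mul_of_nonneg_right hb4 (Real.sqrt_nonneg b)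
        have e3 : δ * Real.sqrt b * Real.sqrt b = δ * b := by rw [mul_assoc, hsb]
        linarith
      linarith
    have h6 := le_abs_self C1
    have h7 : 0 < δ * b := by positivity
    linarith
  obtain ⟨N₀, hN₀⟩ := densB6 hlim (m := m) (b := 2 * b) (by linarith) hδ hlow
  refine ⟨N₀, fun N hN => ?_⟩
  have h4 := hN₀ N hN
  have e : 2 * b / 4 = b / 2 := by ring
  rw [e] at h4
  convert h4 using 2

end Pool.Agent.W_7d29a1_NT6
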