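import Pool.Agent.W_7d29a1_NV.Two6

/-!
Non-tightness: the truncated form of the leaf `TwoT`.
-/

namespace Pool.Agent.W_7d29a1_NT6

open MeasureTheory ProbabilityTheory Pool.Agent.W_7d29a1_NV

/-- Leaf T2, truncated. -/
def TwoTr : Prop := ∀ (Ω S : Type) [MeasurableSpace Ω] [Fintype S] (k : ℕ)
  (P : Measure Ω) [IsProbabilityMeasure P] (Q : S → ℝ) (u : Fin k → S → Ω → ℝ) (B : ℝ),
  1 ≤ B → HT P Q u B →
    (∑ i, ∫ ω, ∑ s, prT Q u ω s * vaT P u i s ∂(Measure.pi fun _ => P)) /
        (4 * B * Real.sqrt (k + 1)) ≤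
      (∫ ω, ∫ ω', min |Real.log (dT Q u ω) - Real.log (dT Q u ω')| (2 * B * Real.sqrt (k + 1))
        ∂(Measure.pi fun _ => P) ∂(Measure.pi fun _ => P)) + ∑ i, kaT P Q u i +
      (2 * B * k + 1) * Real.sqrt (2 * ∑ i, kaT P Q u i)

theorem min_ge6 {x W : ℝ} (hW : 0 < W) : |x| - x ^ 2 / (4 * W) ≤ min |x| W := by
  have h0 : 0 ≤ x ^ 2 / (4 * W) := by positivity
  refine le_min (by linarith) ?_
  have h1 : x ^ 2 = |x| ^ 2 := (sq_abs x).symm
  rw [h1, sub_le_iff_le_add, ← sub_le_iff_le_add', le_div_iff₀ (by positivity)]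
  nlinarith [sq_nonneg (|x| - 2 * W)]

theorem min_lip6 {a b c W : ℝ} (h : a ≤ b + c) (hc : 0 ≤ c) : min a W ≤ min b W + c := by
  rcases le_total b W with hb | hb
  · rw [min_eq_left hb]
    exact (min_le_left _ _).trans h
  · rw [min_eq_right hb]
    linarith [min_le_right a W]

section tr

variable {Ω S : Type} [MeasurableSpace Ω] [Fintype S] {k : ℕ} {P : Measure Ω} {Q : S → ℝ}
  {u : Fin k → S → Ω → ℝ} {B : ℝ}

theorem step6T (h : HT P Q u B) (_hB : 0 ≤ B) (ω ω' : Fin k → Ω) {g : S → ℝ}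
    (hg1 : ∑ s, g s = 1) {W : ℝ} (hW : 0 ≤ W) :
    ∑ s, g s * min |gs6 u ω s - gs6 u ω' s| W ≤
      min |Real.log (dT Q u ω) - Real.log (dT Q u ω')| W +
        (kl Finset.univ (prT Q u ω) (prT Q u ω') +
          2 * Real.sqrt (kl Finset.univ (prT Q u ω) (prT Q u ω'))) +
        k * B * ∑ s, |g s - prT Q u ω s| := by
  set T : S → ℝ := fun s => min |gs6 u ω s - gs6 u ω' s| W with hT
  have h1 : ∑ s, prT Q u ω s * T s ≤ min |Real.log (dT Q u ω) - Real.log (dT Q u ω')| W +
      (kl Finset.univ (prT Q u ω) (prT Q u ω') +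
        2 * Real.sqrt (kl Finset.univ (prT Q u ω) (prT Q u ω'))) := by
    have h2 := abs77 (pp6 h ω ω')
    have h3 : ∀ s ∈ Finset.univ, prT Q u ω s * T s ≤
        prT Q u ω s * min |Real.log (dT Q u ω) - Real.log (dT Q u ω')| W +
          prT Q u ω s * |Real.log (prT Q u ω s / prT Q u ω' s)| := by
      intro s _
      by_cases hs : Q s = 0
      · rw [prT_z6 h ω hs]
        simp
      · rw [prT_log6 h ω ω' hs, ← mul_add]
        refine mul_le_mul_of_nonneg_left ?_ (prT_nn6 h ω s)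
        have h4 := abs_add_le (Real.log (dT Q u ω) - Real.log (dT Q u ω'))
          (gs6 u ω s - gs6 u ω' s - (Real.log (dT Q u ω) - Real.log (dT Q u ω')))
        have h5 : Real.log (dT Q u ω) - Real.log (dT Q u ω') +
            (gs6 u ω s - gs6 u ω' s - (Real.log (dT Q u ω) - Real.log (dT Q u ω'))) =
            gs6 u ω s - gs6 u ω' s := by ring
        rw [h5] at h4
        exact min_lip6 h4 (abs_nonneg _)
    refine (Finset.sum_le_sum h3).trans ?_
    rw [Finset.sum_add_distrib, ← Finset.sum_mul, prT_sum6 h, one_mul]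
    linarith
  have h6 : ∑ s, g s * T s - ∑ s, prT Q u ω s * T s ≤ k * B * ∑ s, |g s - prT Q u ω s| := by
    have e1 : ∑ s, g s * T s - ∑ s, prT Q u ω s * T s =
        ∑ s, (g s - prT Q u ω s) * (T s - k * B) := by
      have e2 : ∀ s, (g s - prT Q u ω s) * (T s - k * B) =
          g s * T s - prT Q u ω s * T s - (g s - prT Q u ω s) * (k * B) := fun s => by ring
      rw [Finset.sum_congr rfl fun s _ => e2 s, Finset.sum_sub_distrib, Finset.sum_sub_distrib,
        ← Finset.sum_mul, Finset.sum_sub_distrib, hg1, prT_sum6 h]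
      ring
    rw [e1, Finset.mul_sum]
    refine Finset.sum_le_sum fun s _ => ?_
    have h7 : |T s - k * B| ≤ k * B := by
      have h8 : 0 ≤ T s := le_min (abs_nonneg _) hW
      have h9 : T s ≤ 2 * (k * B) := (min_le_left _ _).trans (gsd6 h ω ω' s)
      exact abs_le.2 ⟨by linarith, by linarith⟩
    calc (g s - prT Q u ω s) * (T s - k * B) ≤ |(g s - prT Q u ω s) * (T s - k * B)| :=
          le_abs_self _
      _ = |g s - prT Q u ω s| * |T s - k * B| := abs_mul _ _
      _ ≤ |g s - prT Q u ω s| * (k * B) := mul_le_mul_of_nonneg_left h7 (abs_nonneg _)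
      _ = k * B * |g s - prT Q u ω s| := mul_comm _ _
  linarith

/-- The second moment of the difference of the gains of one class. -/
theorem sec6 [IsProbabilityMeasure P] (h : HT P Q u B) (hB : 0 < B) (s : S) :
    ∫ p : (Fin k → Ω) × (Fin k → Ω), (gs6 u p.1 s - gs6 u p.2 s) ^ 2
        ∂((Measure.pi fun _ : Fin k => P).prod (Measure.pi fun _ : Fin k => P)) =
      2 * ∑ i, vaT P u i s := by
  set μ : Measure (Fin k → Ω) := Measure.pi fun _ : Fin k => P with hμ
  obtain ⟨m1, m2, -⟩ := four6 P (b := 2 * B) (by positivity)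
    (g := fun i x => Real.log (u i s x) - psT P u i s)
    (fun i => gc_meas6 h i s) (fun i x => gc_bd6 h i s x) (fun i => gc_int6 h i s)
  rw [← hμ] at m1 m2
  set c : (Fin k → Ω) → ℝ := fun ω => ∑ i, (Real.log (u i s (ω i)) - psT P u i s) with hc
  have hcm : Measurable c :=
    sum6_meas (g := fun i x => Real.log (u i s x) - psT P u i s) fun i => gc_meas6 h i s
  have hcb : ∀ ω, |c ω| ≤ k * (2 * B) :=
    sum6_bd (g := fun i x => Real.log (u i s x) - psT P u i s) (fun i x => gc_bd6 h i s x)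
  have i1 : Integrable c μ := bint6 μ hcm hcb
  have i2 : Integrable (fun ω => c ω ^ 2) μ := bint6 μ (hcm.pow_const 2)
    (C := (k * (2 * B)) ^ 2) fun ω => by
      rw [abs_pow]
      exact pow_le_pow_left₀ (abs_nonneg _) (hcb ω) 2
  have e : ∀ p : (Fin k → Ω) × (Fin k → Ω), (gs6 u p.1 s - gs6 u p.2 s) ^ 2 =
      c p.1 ^ 2 + c p.2 ^ 2 - 2 * (c p.1 * c p.2) := by
    intro p
    have e1 : c p.1 = gs6 u p.1 s - ∑ i, psT P u i s := gsc6 u P p.1 s
    have e2 : c p.2 = gs6 u p.2 s - ∑ i, psT P u i s := gsc6 u P p.2 s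
    rw [e1, e2]
    ring
  have j1 : Integrable (fun p : (Fin k → Ω) × (Fin k → Ω) => c p.1 ^ 2) (μ.prod μ) :=
    i2.comp_fst μ
  have j2 : Integrable (fun p : (Fin k → Ω) × (Fin k → Ω) => c p.2 ^ 2) (μ.prod μ) :=
    i2.comp_snd μ
  have j3 : Integrable (fun p : (Fin k → Ω) × (Fin k → Ω) => c p.1 * c p.2) (μ.prod μ) :=
    i1.mul_prod i1
  have m1' : ∫ ω, c ω ∂μ = 0 := m1
  have m2' : ∫ ω, c ω ^ 2 ∂μ = ∑ i, vaT P u i s := m2
  have k1 : ∫ p : (Fin k → Ω) × (Fin k → Ω), c p.1 ^ 2 ∂(μ.prod μ) = ∑ i, vaT P u i s := by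
    rw [integral_prod _ j1]
    simp only [integral_const, probReal_univ, smul_eq_mul, one_mul]
    exact m2'
  have k2 : ∫ p : (Fin k → Ω) × (Fin k → Ω), c p.2 ^ 2 ∂(μ.prod μ) = ∑ i, vaT P u i s := by
    rw [integral_prod _ j2]
    simp only [integral_const, probReal_univ, smul_eq_mul, one_mul]
    exact m2'
  have k3 : ∫ p : (Fin k → Ω) × (Fin k → Ω), c p.1 * c p.2 ∂(μ.prod μ) = 0 := by
    rw [integral_prod_mul c c, m1', mul_zero]
  have j4 : Integrable (fun p : (Fin k → Ω) × (Fin k → Ω) => c p.1 ^ 2 + c p.2 ^ 2)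
      (μ.prod μ) := j1.add j2
  rw [integral_congr_ae (Filter.Eventually.of_forall e), integral_sub j4 (j3.const_mul 2),
    integral_add j1 j2, integral_const_mul, k1, k2, k3]
  ring

theorem gain6T [IsProbabilityMeasure P] (h : HT P Q u B) (hB : 0 < B) (s : S) :
    (∑ i, vaT P u i s) / (4 * B * Real.sqrt (k + 1)) ≤
      ∫ p : (Fin k → Ω) × (Fin k → Ω),
        min |gs6 u p.1 s - gs6 u p.2 s| (2 * B * Real.sqrt (k + 1))
        ∂((Measure.pi fun _ : Fin k => P).prod (Measure.pi fun _ : Fin k => P)) := by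
  set μ : Measure (Fin k → Ω) := Measure.pi fun _ : Fin k => P with hμ
  set W : ℝ := 2 * B * Real.sqrt (k + 1) with hW
  have hW0 : 0 < W := by
    have : (0 : ℝ) < k + 1 := by positivity
    have := Real.sqrt_pos.2 this
    positivity
  have h1 := gain6 (P := P) h hB s
  have h2 := sec6 (P := P) h hB s
  rw [← hμ] at h1 h2
  have hm0 : Measurable fun p : (Fin k → Ω) × (Fin k → Ω) => gs6 u p.1 s - gs6 u p.2 s :=
    ((gs6_meas h s).comp measurable_fst).sub ((gs6_meas h s).comp measurable_snd)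
  have i1 : Integrable (fun p : (Fin k → Ω) × (Fin k → Ω) => |gs6 u p.1 s - gs6 u p.2 s|)
      (μ.prod μ) := bint6 _ hm0.abs (C := 2 * (k * B)) fun p => by
    rw [abs_abs]
    exact gsd6 h p.1 p.2 s
  have i2 : Integrable (fun p : (Fin k → Ω) × (Fin k → Ω) =>
      (gs6 u p.1 s - gs6 u p.2 s) ^ 2 / (4 * W)) (μ.prod μ) :=
    (bint6 (μ.prod μ) (hm0.pow_const 2) (C := (2 * (k * B)) ^ 2) fun p => by
      rw [abs_pow]
      exact pow_le_pow_left₀ (abs_nonneg _) (gsd6 h p.1 p.2 s) 2).div_const _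
  have i3 : Integrable (fun p : (Fin k → Ω) × (Fin k → Ω) =>
      min |gs6 u p.1 s - gs6 u p.2 s| W) (μ.prod μ) :=
    bint6 _ (hm0.abs.min measurable_const) (C := 2 * (k * B)) fun p => by
      rw [abs_of_nonneg (le_min (abs_nonneg _) hW0.le)]
      exact (min_le_left _ _).trans (gsd6 h p.1 p.2 s)
  have h3 := integral_mono (i1.sub i2) i3 fun p => min_ge6 (x := gs6 u p.1 s - gs6 u p.2 s) hW0
  rw [integral_sub' i1 i2, integral_div, h2] at h3
  have h4 : (∑ i, vaT P u i s) / (4 * B * Real.sqrt (k + 1)) =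
      (∑ i, vaT P u i s) / W - 2 * (∑ i, vaT P u i s) / (4 * W) := by
    have e : 4 * B * Real.sqrt (k + 1) = 2 * W := by
      rw [hW]
      ring
    rw [e]
    field_simp
    ring
  rw [h4]
  linarith

end tr

open Classical in
theorem twoTr6 : TwoTr := by
  intro Ω S _ _ k P _ Q u B hB1 h
  have hB : 0 < B := by linarith
  set μ : Measure (Fin k → Ω) := Measure.pi fun _ : Fin k => P with hμ
  set K : ℝ := ∑ i, kaT P Q u i with hK
  set W : ℝ := 2 * B * Real.sqrt (k + 1) with hW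
  have hW0 : 0 < W := by
    have : (0 : ℝ) < k + 1 := by positivity
    have := Real.sqrt_pos.2 this
    positivity
  have hW2 : 4 * B * Real.sqrt (k + 1) = 2 * W := by
    rw [hW]
    ring
  -- the mean law
  set g : S → ℝ := fun s => ∫ ω, prT Q u ω s ∂μ with hg
  have hpi : ∀ s, Integrable (fun ω => prT Q u ω s) μ := fun s =>
    bint6 μ (prT_meas6 h s) (C := 1) fun ω => by
      rw [abs_of_nonneg (prT_nn6 h ω s)]
      exact prT_le6 h ω s
  have hg0 : ∀ s, 0 ≤ g s := fun s => integral_nonneg fun ω => prT_nn6 h ω s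
  have hg1 : ∑ s, g s = 1 := by
    rw [hg]
    show ∑ s, ∫ ω, prT Q u ω s ∂μ = 1
    rw [← integral_finsetSum _ fun s _ => hpi s,
      integral_congr_ae (Filter.Eventually.of_forall fun ω => prT_sum6 h ω)]
    simp
  -- the left side
  have hL : ∑ i, ∫ ω, ∑ s, prT Q u ω s * vaT P u i s ∂μ = ∑ s, g s * ∑ i, vaT P u i s := by
    have e1 : ∀ i : Fin k, ∫ ω, ∑ s, prT Q u ω s * vaT P u i s ∂μ =
        ∑ s, g s * vaT P u i s := by
      intro i
      rw [integral_finsetSum _ fun s _ => (hpi s).mul_const _]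
      exact Finset.sum_congr rfl fun s _ => integral_mul_const _ _
    rw [Finset.sum_congr rfl fun i _ => e1 i, Finset.sum_comm]
    exact Finset.sum_congr rfl fun s _ => (Finset.mul_sum _ _ _).symm
  -- functions on the product
  have mT : ∀ s, Measurable fun p : (Fin k → Ω) × (Fin k → Ω) =>
      min |gs6 u p.1 s - gs6 u p.2 s| W :=
    fun s => ((((gs6_meas h s).comp measurable_fst).sub
      ((gs6_meas h s).comp measurable_snd)).abs).min measurable_const
  have iT : ∀ s, Integrable (fun p : (Fin k → Ω) × (Fin k → Ω) =>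
      min |gs6 u p.1 s - gs6 u p.2 s| W)
      (μ.prod μ) := fun s => bint6 _ (mT s) (C := 2 * (k * B)) fun p => by
    rw [abs_of_nonneg (le_min (abs_nonneg _) hW0.le)]
    exact (min_le_left _ _).trans (gsd6 h p.1 p.2 s)
  have mF : Measurable fun p : (Fin k → Ω) × (Fin k → Ω) =>
      min |Real.log (dT Q u p.1) - Real.log (dT Q u p.2)| W :=
    ((((Real.measurable_log.comp (dT_meas6 h)).comp measurable_fst).sub
      ((Real.measurable_log.comp (dT_meas6 h)).comp measurable_snd)).abs).min measurable_const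
  have iF : Integrable (fun p : (Fin k → Ω) × (Fin k → Ω) =>
      min |Real.log (dT Q u p.1) - Real.log (dT Q u p.2)| W) (μ.prod μ) :=
    bint6 _ mF (C := 2 * (k * B)) fun p => by
      rw [abs_of_nonneg (le_min (abs_nonneg _) hW0.le)]
      exact (min_le_left _ _).trans (ldd6 h p.1 p.2)
  have hk0 : ∀ p : (Fin k → Ω) × (Fin k → Ω), 0 ≤ kl Finset.univ (prT Q u p.1) (prT Q u p.2) :=
    fun p => kl_nonneg77 (pp6 h p.1 p.2)
  have iK : Integrable (fun p : (Fin k → Ω) × (Fin k → Ω) =>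
      kl Finset.univ (prT Q u p.1) (prT Q u p.2)) (μ.prod μ) :=
    bint6 _ (kl_meas6 h) fun p => kl_bd6 h p.1 p.2
  have iR : Integrable (fun p : (Fin k → Ω) × (Fin k → Ω) =>
      Real.sqrt (kl Finset.univ (prT Q u p.1) (prT Q u p.2))) (μ.prod μ) :=
    bint6 _ (Real.continuous_sqrt.measurable.comp (kl_meas6 h)) (C := Real.sqrt (4 * (k * B)))
      fun p => by
        rw [abs_of_nonneg (Real.sqrt_nonneg _)]
        exact Real.sqrt_le_sqrt ((le_abs_self _).trans (kl_bd6 h p.1 p.2))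
  have hKK : ∫ p : (Fin k → Ω) × (Fin k → Ω), kl Finset.univ (prT Q u p.1) (prT Q u p.2)
      ∂(μ.prod μ) = K := by
    rw [integral_prod _ iK]
    exact sel_all6 h hB.le
  have hK0 : 0 ≤ K := by
    rw [← hKK]
    exact integral_nonneg hk0
  have hsq : ∫ p : (Fin k → Ω) × (Fin k → Ω),
      Real.sqrt (kl Finset.univ (prT Q u p.1) (prT Q u p.2)) ∂(μ.prod μ) ≤ Real.sqrt K := by
    rw [← hKK]
    exact sqrt6 (μ.prod μ) (kl_meas6 h) hk0 fun p => (le_abs_self _).trans (kl_bd6 h p.1 p.2)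
  -- the mean law against the law
  have mG : ∀ s, Measurable fun ω => |g s - prT Q u ω s| := fun s =>
    (measurable_const.sub (prT_meas6 h s)).abs
  have bG : ∀ s ω, |g s - prT Q u ω s| ≤ 1 := by
    intro s ω
    have h1 : g s ≤ 1 := by
      rw [← hg1]
      exact Finset.single_le_sum (fun t _ => hg0 t) (Finset.mem_univ s)
    have h2 := prT_le6 h ω s
    have h3 := prT_nn6 h ω s
    have h4 := hg0 s
    exact abs_le.2 ⟨by linarith, by linarith⟩
  have iG : ∀ s, Integrable (fun ω => |g s - prT Q u ω s|) μ := fun s =>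
    bint6 μ (mG s) (C := 1) fun ω => by
      rw [abs_abs]
      exact bG s ω
  have mD : ∀ s, Measurable fun p : (Fin k → Ω) × (Fin k → Ω) =>
      |prT Q u p.1 s - prT Q u p.2 s| := fun s =>
    (((prT_meas6 h s).comp measurable_fst).sub ((prT_meas6 h s).comp measurable_snd)).abs
  have iD : ∀ s, Integrable (fun p : (Fin k → Ω) × (Fin k → Ω) =>
      |prT Q u p.1 s - prT Q u p.2 s|) (μ.prod μ) := fun s =>
    bint6 _ (mD s) (C := 1) fun p => by
      rw [abs_abs]
      have h1 := prT_le6 h p.1 s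
      have h2 := prT_nn6 h p.1 s
      have h3 := prT_le6 h p.2 s
      have h4 := prT_nn6 h p.2 s
      exact abs_le.2 ⟨by linarith, by linarith⟩
  have hTV : ∫ ω, ∑ s, |g s - prT Q u ω s| ∂μ ≤ 2 * Real.sqrt K := by
    have h1 : ∀ s ω, |g s - prT Q u ω s| ≤ ∫ ω', |prT Q u ω s - prT Q u ω' s| ∂μ := by
      intro s ω
      have e1 : g s - prT Q u ω s = - ∫ ω', (prT Q u ω s - prT Q u ω' s) ∂μ := by
        rw [integral_sub (integrable_const _) (hpi s)]
        simp [hg]
      rw [e1, abs_neg]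
      exact abs_integral_le_integral_abs
    have h2 : ∀ s, ∫ ω, |g s - prT Q u ω s| ∂μ ≤
        ∫ p : (Fin k → Ω) × (Fin k → Ω), |prT Q u p.1 s - prT Q u p.2 s| ∂(μ.prod μ) := by
      intro s
      rw [integral_prod _ (iD s)]
      exact integral_mono (iG s) (iD s).integral_prod_left fun ω => h1 s ω
    rw [integral_finsetSum _ fun s _ => iG s]
    refine (Finset.sum_le_sum fun s _ => h2 s).trans ?_
    rw [← integral_finsetSum _ fun s _ => iD s]
    have h3 : ∫ p : (Fin k → Ω) × (Fin k → Ω), ∑ s, |prT Q u p.1 s - prT Q u p.2 s|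
        ∂(μ.prod μ) ≤ ∫ p : (Fin k → Ω) × (Fin k → Ω),
          2 * Real.sqrt (kl Finset.univ (prT Q u p.1) (prT Q u p.2)) ∂(μ.prod μ) :=
      integral_mono (integrable_finsetSum _ fun s _ => iD s) (iR.const_mul _)
        fun p => tv77 (pp6 h p.1 p.2)
    refine h3.trans ?_
    rw [integral_const_mul]
    linarith
  -- assembly
  have iSum : Integrable (fun p : (Fin k → Ω) × (Fin k → Ω) =>
      ∑ s, g s * min |gs6 u p.1 s - gs6 u p.2 s| W) (μ.prod μ) :=
    integrable_finsetSum _ fun s _ => (iT s).const_mul _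
  have iGS : Integrable (fun ω => ∑ s, |g s - prT Q u ω s|) μ :=
    integrable_finsetSum _ fun s _ => iG s
  have iGS2 : Integrable (fun p : (Fin k → Ω) × (Fin k → Ω) =>
      ∑ s, |g s - prT Q u p.1 s|) (μ.prod μ) := iGS.comp_fst μ
  have hmain : ∑ s, g s * ((∑ i, vaT P u i s) / (2 * W)) ≤
      (∫ p : (Fin k → Ω) × (Fin k → Ω), min |Real.log (dT Q u p.1) - Real.log (dT Q u p.2)| W
        ∂(μ.prod μ)) + (K + 2 * Real.sqrt K) + k * B * (2 * Real.sqrt K) := by
    have h1 : ∑ s, g s * ((∑ i, vaT P u i s) / (2 * W)) ≤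
        ∫ p : (Fin k → Ω) × (Fin k → Ω), ∑ s, g s * min |gs6 u p.1 s - gs6 u p.2 s| W
          ∂(μ.prod μ) := by
      rw [integral_finsetSum _ fun s _ => (iT s).const_mul _]
      refine Finset.sum_le_sum fun s _ => ?_
      rw [integral_const_mul]
      have h9 := gain6T (P := P) h hB s
      rw [hW2] at h9
      exact mul_le_mul_of_nonneg_left h9 (hg0 s)
    refine h1.trans ?_
    have i1 : Integrable (fun p : (Fin k → Ω) × (Fin k → Ω) =>
        kl Finset.univ (prT Q u p.1) (prT Q u p.2) +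
          2 * Real.sqrt (kl Finset.univ (prT Q u p.1) (prT Q u p.2))) (μ.prod μ) :=
      iK.add (iR.const_mul _)
    have i2 : Integrable (fun p : (Fin k → Ω) × (Fin k → Ω) =>
        min |Real.log (dT Q u p.1) - Real.log (dT Q u p.2)| W +
        (kl Finset.univ (prT Q u p.1) (prT Q u p.2) +
          2 * Real.sqrt (kl Finset.univ (prT Q u p.1) (prT Q u p.2)))) (μ.prod μ) := iF.add i1
    have i3 : Integrable (fun p : (Fin k → Ω) × (Fin k → Ω) =>
        k * B * ∑ s, |g s - prT Q u p.1 s|) (μ.prod μ) := iGS2.const_mul _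
    have h2 := integral_mono iSum (i2.add i3) fun p => step6T h hB.le p.1 p.2 hg1 hW0.le
    refine h2.trans ?_
    have e1 : ∫ p, ((fun p : (Fin k → Ω) × (Fin k → Ω) =>
        min |Real.log (dT Q u p.1) - Real.log (dT Q u p.2)| W +
        (kl Finset.univ (prT Q u p.1) (prT Q u p.2) +
          2 * Real.sqrt (kl Finset.univ (prT Q u p.1) (prT Q u p.2)))) +
        fun p : (Fin k → Ω) × (Fin k → Ω) => k * B * ∑ s, |g s - prT Q u p.1 s|) p
        ∂(μ.prod μ) =
        (∫ p : (Fin k → Ω) × (Fin k → Ω), min |Real.log (dT Q u p.1) - Real.log (dT Q u p.2)| W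
          ∂(μ.prod μ)) + (K + 2 * ∫ p : (Fin k → Ω) × (Fin k → Ω),
            Real.sqrt (kl Finset.univ (prT Q u p.1) (prT Q u p.2)) ∂(μ.prod μ)) +
          k * B * ∫ ω, ∑ s, |g s - prT Q u ω s| ∂μ := by
      rw [integral_add' i2 i3, integral_add iF i1, integral_add iK (iR.const_mul _),
        integral_const_mul, integral_const_mul, hKK]
      congr 2
      rw [integral_prod _ iGS2]
      simp
    rw [e1]
    have h4 : (k : ℝ) * B * ∫ ω, ∑ s, |g s - prT Q u ω s| ∂μ ≤ k * B * (2 * Real.sqrt K) :=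
      mul_le_mul_of_nonneg_left hTV (by positivity)
    linarith
  have hleft : (∑ i, ∫ ω, ∑ s, prT Q u ω s * vaT P u i s ∂μ) / (2 * W) =
      ∑ s, g s * ((∑ i, vaT P u i s) / (2 * W)) := by
    rw [hL, Finset.sum_div]
    exact Finset.sum_congr rfl fun s _ => mul_div_assoc _ _ _
  rw [hW2, hleft, ← integral_prod (fun p : (Fin k → Ω) × (Fin k → Ω) =>
    min |Real.log (dT Q u p.1) - Real.log (dT Q u p.2)| W) iF]
  refine hmain.trans ?_
  rcases Nat.eq_zero_or_pos k with hk | hk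
  · subst hk
    have hK' : K = 0 := by simp [hK]
    rw [hK']
    simp
  · have hk1 : (1 : ℝ) ≤ k := by exact_mod_cast hk
    have h1 : Real.sqrt (2 * K) = Real.sqrt 2 * Real.sqrt K := Real.sqrt_mul (by norm_num) K
    rw [h1]
    have h2 : (1.41 : ℝ) ≤ Real.sqrt 2 := by
      refine Real.le_sqrt_of_sq_le ?_
      norm_num
    have h3 := Real.sqrt_nonneg K
    have h4 : (1 : ℝ) ≤ k * B := by nlinarith
    have h5 : 2 * Real.sqrt K + k * B * (2 * Real.sqrt K) ≤
        (2 * B * k + 1) * (Real.sqrt 2 * Real.sqrt K) := by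
      have h6 : 2 + k * B * 2 ≤ (2 * B * k + 1) * Real.sqrt 2 := by nlinarith
      nlinarith
    linarith

end Pool.Agent.W_7d29a1_NT6
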