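import Pool.Agent.W_7d29a1_NV.TwoP66
import Pool.Agent.W_7d29a1_NT6.TwoTr6

/-!
Non-tightness: the truncated form of the leaf `TwoP`.
-/

namespace Pool.Agent.W_7d29a1_NT6

open MeasureTheory ProbabilityTheory Filter Topology Pool.Agent.W_MP_7d29a1_pr
  Pool.Agent.W_7d29a1_h46 Pool.Agent.W_7d29a1_h46u Pool.Agent.W_7d29a1_D2.B35
  Pool.Agent.W_7d29a1_Q29 Pool.Agent.W_7d29a1_NV Pool.Agent.W_7d29a1_NV.M66

/-- Leaf Q, truncated. -/
def TwoPr (d : ℕ) (ρ : Measure ℝ) (β b : ℝ) : Prop := ∀ (h : Vec d) (n k : ℕ) (T : Fin k → ℕ)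
  (r : Fin (k + 1) → ℕ), Ord n T r → ∀ a M δ : ℝ, 0 ≤ M →
  (law d ρ).real {η | M < |X β h η n - a|} ≤ δ →
  (∑ i : Fin k, vap ρ β b h n (T i) (r i.castSucc) (r i.succ)) /
      (4 * Bc β b * Real.sqrt (k + 1)) ≤
    2 * M + 4 * Bc β b * Real.sqrt (k + 1) * δ +
      ∑ i : Fin k, kap ρ β b h n (T i) (r i.castSucc) (r i.succ) +
      (2 * Bc β b * k + 1) *
        Real.sqrt (2 * ∑ i : Fin k, kap ρ β b h n (T i) (r i.castSucc) (r i.succ))

section Pol

variable {d : ℕ} {ρ : Measure ℝ} [IsProbabilityMeasure ρ] {β b : ℝ}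

/-- The indicator of a large deviation. -/
noncomputable def bad6 (β : ℝ) (h : Vec d) (n : ℕ) (a M : ℝ) (η : Env d) : ℝ :=
  Set.indicator {η : Env d | M < |X β h η n - a|} (fun _ => (1 : ℝ)) η

theorem bad6_set (β : ℝ) (h : Vec d) (n : ℕ) (a M : ℝ) :
    MeasurableSet {η : Env d | M < |X β h η n - a|} :=
  measurableSet_lt measurable_const ((measurable_X β h n).sub_const a).abs

theorem bad6_meas (β : ℝ) (h : Vec d) (n : ℕ) (a M : ℝ) :
    Measurable (bad6 β h n a M : Env d → ℝ) :=
  measurable_const.indicator (bad6_set β h n a M)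

theorem bad6_nn (β : ℝ) (h : Vec d) (n : ℕ) (a M : ℝ) (η : Env d) : 0 ≤ bad6 β h n a M η :=
  Set.indicator_nonneg (fun _ _ => zero_le_one) η

theorem bad6_le (β : ℝ) (h : Vec d) (n : ℕ) (a M : ℝ) (η : Env d) : |bad6 β h n a M η| ≤ 1 := by
  rw [abs_of_nonneg (bad6_nn β h n a M η)]
  exact Set.indicator_le_self' (fun _ _ => zero_le_one) η

theorem bad6_one {β : ℝ} {h : Vec d} {n : ℕ} {a M : ℝ} {η : Env d} (hη : M < |X β h η n - a|) :
    bad6 β h n a M η = 1 := Set.indicator_of_mem (s := {η : Env d | M < |X β h η n - a|}) hη _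

theorem bad6_int (β : ℝ) (h : Vec d) (n : ℕ) (a M : ℝ) :
    ∫ η, bad6 β h n a M η ∂(law d ρ) = (law d ρ).real {η : Env d | M < |X β h η n - a|} := by
  unfold bad6
  rw [integral_indicator (bad6_set β h n a M)]
  simp [Measure.real]

theorem min_bad6 {β : ℝ} {h : Vec d} {n : ℕ} {a M W : ℝ} (hM : 0 ≤ M) (hW : 0 ≤ W)
    (η η' : Env d) : min |X β h η n - X β h η' n| W ≤
      (2 * M + W * bad6 β h n a M η) + W * bad6 β h n a M η' := by
  have p1 := mul_nonneg hW (bad6_nn β h n a M η)
  have p2 := mul_nonneg hW (bad6_nn β h n a M η')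
  by_cases c1 : M < |X β h η n - a|
  · rw [bad6_one c1] at p1 ⊢
    linarith [min_le_right |X β h η n - X β h η' n| W]
  · by_cases c2 : M < |X β h η' n - a|
    · rw [bad6_one c2] at p2 ⊢
      linarith [min_le_right |X β h η n - X β h η' n| W]
    · rw [not_lt] at c1 c2
      have e : X β h η n - X β h η' n = (X β h η n - a) - (X β h η' n - a) := by ring
      have c5 := abs_sub (X β h η n - a) (X β h η' n - a)
      rw [← e] at c5
      linarith [min_le_left |X β h η n - X β h η' n| W]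

/-- The truncated distance of two resampled free energies. -/
lemma dist6 (hb : HB ρ b) (hE : EqT d ρ β b) (hW : MixT d ρ b)
    (h : Vec d) {n k : ℕ} {T : Fin k → ℕ} {r : Fin (k + 1) → ℕ} (hO : Ord n T r)
    {a M δ W : ℝ} (hM : 0 ≤ M) (hW0 : 0 ≤ W)
    (hδ : (law d ρ).real {η | M < |X β h η n - a|} ≤ δ) :
    ∫ η, (∫ ω, ∫ ω', min |Real.log (dT (Qsp ρ β b h n T r η) (usp ρ β b h n T r η) ω) -
      Real.log (dT (Qsp ρ β b h n T r η) (usp ρ β b h n T r η) ω')| W
      ∂(Measure.pi fun _ => law d (rb ρ b)) ∂(Measure.pi fun _ => law d (rb ρ b))) ∂(law d ρ) ≤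
      2 * M + 2 * W * δ := by
  haveI := prob_rb hb
  set Pk : Measure (Fin k → Env d) := Measure.pi fun _ => law d (rb ρ b) with hPk
  have hmJ : Measurable fun w : Env d × (Fin k → Env d) => mxJ b T w.1 w.2 :=
    mxJ_meas b T measurable_fst measurable_snd
  obtain ⟨F, hF⟩ : ∃ F : Env d × (Fin k → Env d) → ℝ,
    F = fun w => bad6 β h n a M (mxJ b T w.1 w.2) := ⟨_, rfl⟩
  have hFm : Measurable F := by
    rw [hF]
    exact (bad6_meas β h n a M).comp hmJ
  have hF1 : ∀ w, |F w| ≤ 1 := fun w => by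
    rw [hF]
    exact bad6_le _ _ _ _ _ _
  have hmp := hW k T (ord_inj hO)
  have hFi : Integrable F ((law d ρ).prod Pk) := bint6 _ hFm hF1
  have hFs : ∀ η : Env d, Integrable (fun ξ : Fin k → Env d => F (η, ξ)) Pk := fun η =>
    bint6 Pk (hFm.comp (measurable_const.prodMk measurable_id)) fun ξ => hF1 (η, ξ)
  have hFI : ∫ w, F w ∂((law d ρ).prod Pk) ≤ δ := by
    have h6 : ∫ w : Env d × (Fin k → Env d), bad6 β h n a M (mxJ b T w.1 w.2)
        ∂((law d ρ).prod Pk) = ∫ η, bad6 β h n a M η ∂(law d ρ) :=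
      LawU_integral (F := bad6 β h n a M) hmp (bad6_meas β h n a M).aestronglyMeasurable
    rw [hF, h6, bad6_int]
    exact hδ
  have key : ∀ η : Env d, (∫ ω, ∫ ω', min |Real.log (dT (Qsp ρ β b h n T r η)
      (usp ρ β b h n T r η) ω) - Real.log (dT (Qsp ρ β b h n T r η) (usp ρ β b h n T r η) ω')| W
      ∂Pk ∂Pk) ≤ 2 * M + 2 * W * ∫ ξ, F (η, ξ) ∂Pk := by
    intro η
    obtain ⟨H, h1⟩ := hE h n k T r hO η
    obtain ⟨D, hD⟩ : ∃ D : (Fin k → Env d) → (Fin k → Env d) → ℝ,
      D = fun ω ω' => min |Real.log (dT (Qsp ρ β b h n T r η)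
        (usp ρ β b h n T r η) ω) - Real.log (dT (Qsp ρ β b h n T r η)
        (usp ρ β b h n T r η) ω')| W := ⟨_, rfl⟩
    have nn : ∀ ω ω', 0 ≤ D ω ω' := fun ω ω' => by
      rw [hD]
      exact le_min (abs_nonneg _) hW0
    have e : ∀ ω ω' : Fin k → Env d, D ω ω' ≤ (2 * M + W * F (η, ω)) + W * F (η, ω') := by
      intro ω ω'
      have e1 := min_bad6 (β := β) (h := h) (n := n) (a := a) hM hW0 (mxJ b T η ω) (mxJ b T η ω')
      have e2 : X β h (mxJ b T η ω) n - X β h (mxJ b T η ω') n =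
          Real.log (dT (Qsp ρ β b h n T r η) (usp ρ β b h n T r η) ω) -
          Real.log (dT (Qsp ρ β b h n T r η) (usp ρ β b h n T r η) ω') := by
        rw [(h1 ω).2, (h1 ω').2]
        ring
      rw [e2] at e1
      rw [hD, hF]
      exact e1
    obtain ⟨J, hJ⟩ : ∃ J : ℝ, J = ∫ ξ, F (η, ξ) ∂Pk := ⟨_, rfl⟩
    have h2 : ∀ ω, ∫ ω', D ω ω' ∂Pk ≤ (2 * M + W * F (η, ω)) + W * J := by
      intro ω
      have h3 : ∫ ω', ((2 * M + W * F (η, ω)) + W * F (η, ω')) ∂Pk =
          (2 * M + W * F (η, ω)) + W * J := by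
        rw [integral_add (integrable_const _) ((hFs η).const_mul W), integral_const,
          probReal_univ, one_smul, integral_const_mul, ← hJ]
      rw [← h3]
      exact integral_mono_of_nonneg (Eventually.of_forall fun _ => nn _ _)
        ((integrable_const _).add ((hFs η).const_mul W)) (Eventually.of_forall fun ω' => e ω ω')
    have i4 : Integrable (fun ω : Fin k → Env d => 2 * M + W * F (η, ω)) Pk :=
      (integrable_const _).add ((hFs η).const_mul W)
    have h4 : ∫ ω, ((2 * M + W * F (η, ω)) + W * J) ∂Pk = 2 * M + 2 * W * J := by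
      rw [integral_add i4 (integrable_const _), integral_add (integrable_const _)
        ((hFs η).const_mul W), integral_const, integral_const,
        probReal_univ, one_smul, one_smul, integral_const_mul, ← hJ]
      ring
    have h5 : ∫ ω, ∫ ω', D ω ω' ∂Pk ∂Pk ≤ 2 * M + 2 * W * J := by
      rw [← h4]
      exact integral_mono_of_nonneg (Eventually.of_forall fun _ => integral_nonneg fun _ =>
        nn _ _) (i4.add (integrable_const _)) (Eventually.of_forall h2)
    rw [hD, hJ] at h5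
    exact h5
  have hJi : Integrable (fun η => ∫ ξ, F (η, ξ) ∂Pk) (law d ρ) := hFi.integral_prod_left
  have i5 : Integrable (fun η => 2 * M + 2 * W * ∫ ξ, F (η, ξ) ∂Pk) (law d ρ) :=
    (integrable_const _).add (hJi.const_mul _)
  have h5 := integral_mono_of_nonneg (μ := law d ρ) (Eventually.of_forall fun η =>
    integral_nonneg fun _ => integral_nonneg fun _ => le_min (abs_nonneg _) hW0) i5
    (Eventually.of_forall key)
  refine h5.trans ?_
  rw [integral_add (integrable_const _) (hJi.const_mul _), integral_const, probReal_univ,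
    one_smul, integral_const_mul, ← integral_prod _ hFi]
  have h7 : 2 * W * ∫ w, F w ∂((law d ρ).prod Pk) ≤ 2 * W * δ :=
    mul_le_mul_of_nonneg_left hFI (by positivity)
  linarith

/-- Leaf Q, truncated. -/
theorem twoPr6 (hb : HB ρ b) (h1 : OneT) (h2 : TwoTr)
    (hE : EqT d ρ β b) (hK : KapT d ρ β b) (hW : MixT d ρ b) : TwoPr d ρ β b := by
  intro h n k T r hO a M δ hM hδ
  haveI := prob_rb hb
  have hB := one_le_Bc hb β
  set B : ℝ := Bc β b with hBdef
  obtain ⟨W, hWd⟩ : ∃ W : ℝ, W = 2 * B * Real.sqrt (k + 1) := ⟨_, rfl⟩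
  have hW0 : 0 ≤ W := by
    rw [hWd]
    positivity
  set P : Measure (Env d) := law d (rb ρ b) with hP
  set Pk : Measure (Fin k → Env d) := Measure.pi fun _ => P with hPk
  set V : Env d → ℝ := fun η => ∑ i, ∫ ω, ∑ s, prT (Qsp ρ β b h n T r η) (usp ρ β b h n T r η) ω s *
      vaT P (usp ρ β b h n T r η) i s ∂Pk with hV
  set I : Env d → ℝ := fun η => ∫ ω, ∫ ω', min |Real.log (dT (Qsp ρ β b h n T r η)
      (usp ρ β b h n T r η) ω) - Real.log (dT (Qsp ρ β b h n T r η) (usp ρ β b h n T r η) ω')| W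
      ∂Pk ∂Pk with hI
  set κ : Env d → ℝ := fun η => ∑ i, kaT P (Qsp ρ β b h n T r η) (usp ρ β b h n T r η) i with hκ
  have hpt : ∀ η, V η / (4 * B * Real.sqrt (k + 1)) ≤
      I η + κ η + (2 * B * k + 1) * Real.sqrt (2 * κ η) := by
    intro η
    have h9 := h2 (Env d) (Sp d n k) k P _ _ B hB (hE h n k T r hO η).1
    rw [← hWd] at h9
    exact h9
  -- measurability and bounds
  have mv : ∀ i, Measurable fun η => ∫ ω, ∑ s, prT (Qsp ρ β b h n T r η)
      (usp ρ β b h n T r η) ω s * vaT P (usp ρ β b h n T r η) i s ∂Pk := by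
    intro i
    have h3 : Measurable fun w : Env d × (Fin k → Env d) => ∑ s, prT (Qsp ρ β b h n T r w.1)
        (usp ρ β b h n T r w.1) w.2 s * vaT P (usp ρ β b h n T r w.1) i s :=
      Finset.measurable_sum _ fun s _ =>
        (prT_meas ρ β b h n T r s measurable_fst measurable_snd).mul
          ((vaT_meas hb β h n T r i s).comp measurable_fst)
    exact (h3.stronglyMeasurable.integral_prod_right (ν := Pk)).measurable
  have bv : ∀ i η, |∫ ω, ∑ s, prT (Qsp ρ β b h n T r η)
      (usp ρ β b h n T r η) ω s * vaT P (usp ρ β b h n T r η) i s ∂Pk| ≤ 4 * B ^ 2 := by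
    intro i η
    have H := (hE h n k T r hO η).1
    have h3 := norm_integral_le_of_norm_le_const (μ := Pk)
      (f := fun ω => ∑ s, prT (Qsp ρ β b h n T r η) (usp ρ β b h n T r η) ω s *
        vaT P (usp ρ β b h n T r η) i s) (C := 4 * B ^ 2)
      (Eventually.of_forall fun ω => sum_pr_le H ω fun s => by
        rw [abs_of_nonneg (vaT_bd H i s).1]
        exact (vaT_bd H i s).2)
    simpa using h3
  have iv : ∀ i, Integrable (fun η => ∫ ω, ∑ s, prT (Qsp ρ β b h n T r η)
      (usp ρ β b h n T r η) ω s * vaT P (usp ρ β b h n T r η) i s ∂Pk) (law d ρ) := fun i =>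
    Integrable.mono' (integrable_const _) (mv i).aestronglyMeasurable
      (Eventually.of_forall fun η => bv i η)
  have iV : Integrable V (law d ρ) := integrable_finsetSum _ fun i _ => iv i
  have ik : ∀ i, Integrable (fun η => kaT P (Qsp ρ β b h n T r η) (usp ρ β b h n T r η) i)
      (law d ρ) := fun i =>
    Integrable.mono' (integrable_const (2 * B)) (kaT_meas hb β h n T r i).aestronglyMeasurable
      (Eventually.of_forall fun η => kaT_bd (hE h n k T r hO η).1 i)
  have iκ : Integrable κ (law d ρ) := integrable_finsetSum _ fun i _ => ik i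
  have κ0 : ∀ η, 0 ≤ κ η := fun η => Finset.sum_nonneg fun i _ =>
    kaT_nonneg h1 hB (hE h n k T r hO η).1 i
  have κm : Measurable κ := Finset.measurable_sum _ fun i _ => kaT_meas hb β h n T r i
  have κb : ∀ η, κ η ≤ 2 * B * k := by
    intro η
    calc κ η ≤ ∑ _i : Fin k, 2 * B := Finset.sum_le_sum fun i _ =>
          (le_abs_self _).trans (kaT_bd (hE h n k T r hO η).1 i)
      _ = 2 * B * k := by
          rw [Finset.sum_const, Finset.card_univ, Fintype.card_fin, nsmul_eq_mul]
          ring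
  have is : Integrable (fun η => Real.sqrt (2 * κ η)) (law d ρ) := by
    refine Integrable.mono' (integrable_const (Real.sqrt (2 * (2 * B * k))))
      (κm.const_mul 2).sqrt.aestronglyMeasurable (Eventually.of_forall fun η => ?_)
    rw [Real.norm_eq_abs, abs_of_nonneg (Real.sqrt_nonneg _)]
    exact Real.sqrt_le_sqrt (by linarith [κb η])
  have mI : Measurable I := by
    have h3 : Measurable fun w : (Env d × (Fin k → Env d)) × (Fin k → Env d) =>
        min |Real.log (dT (Qsp ρ β b h n T r w.1.1) (usp ρ β b h n T r w.1.1) w.1.2) -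
        Real.log (dT (Qsp ρ β b h n T r w.1.1) (usp ρ β b h n T r w.1.1) w.2)| W :=
      (measurable_norm.comp ((Real.measurable_log.comp (dT_meas ρ β b h n T r
        (measurable_fst.comp measurable_fst) (measurable_snd.comp measurable_fst))).sub
        (Real.measurable_log.comp (dT_meas ρ β b h n T r
        (measurable_fst.comp measurable_fst) measurable_snd)))).min measurable_const
    have h4 := (h3.stronglyMeasurable.integral_prod_right' (ν := Pk))
    exact (h4.integral_prod_right' (ν := Pk)).measurable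
  have bI : ∀ η, |I η| ≤ 2 * (B * k) := by
    intro η
    have H := (hE h n k T r hO η).1
    have h3 : ∀ ω ω' : Fin k → Env d, min |Real.log (dT (Qsp ρ β b h n T r η)
        (usp ρ β b h n T r η) ω) - Real.log (dT (Qsp ρ β b h n T r η)
        (usp ρ β b h n T r η) ω')| W ≤ 2 * (B * k) := by
      intro ω ω'
      refine (min_le_left _ _).trans ((abs_sub _ _).trans ?_)
      linarith [log_dT H ω, log_dT H ω']
    have h4 : ∀ ω, |∫ ω', min |Real.log (dT (Qsp ρ β b h n T r η)
        (usp ρ β b h n T r η) ω) - Real.log (dT (Qsp ρ β b h n T r η)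
        (usp ρ β b h n T r η) ω')| W ∂Pk| ≤ 2 * (B * k) := by
      intro ω
      have h5 := norm_integral_le_of_norm_le_const (μ := Pk) (f := fun ω' =>
        min |Real.log (dT (Qsp ρ β b h n T r η) (usp ρ β b h n T r η) ω) -
          Real.log (dT (Qsp ρ β b h n T r η) (usp ρ β b h n T r η) ω')| W) (C := 2 * (B * k))
        (Eventually.of_forall fun ω' => by
          rw [Real.norm_eq_abs, abs_of_nonneg (le_min (abs_nonneg _) hW0)]
          exact h3 ω ω')
      simpa using h5
    have h6 := norm_integral_le_of_norm_le_const (μ := Pk) (f := fun ω => ∫ ω',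
        min |Real.log (dT (Qsp ρ β b h n T r η) (usp ρ β b h n T r η) ω) -
          Real.log (dT (Qsp ρ β b h n T r η) (usp ρ β b h n T r η) ω')| W ∂Pk) (C := 2 * (B * k))
        (Eventually.of_forall fun ω => h4 ω)
    simpa [hI] using h6
  have iI : Integrable I (law d ρ) := Integrable.mono' (integrable_const _)
    mI.aestronglyMeasurable (Eventually.of_forall bI)
  have iIκ : Integrable (fun η => I η + κ η) (law d ρ) := iI.add iκ
  -- integrate
  have h3 := integral_mono (iV.div_const _) (iIκ.add (is.const_mul (2 * B * k + 1))) hpt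
  have eV : ∫ η, V η / (4 * B * Real.sqrt (k + 1)) ∂(law d ρ) =
      (∑ i : Fin k, vap ρ β b h n (T i) (r i.castSucc) (r i.succ)) /
        (4 * B * Real.sqrt (k + 1)) := by
    rw [integral_div]
    congr 1
    rw [hV, integral_finsetSum _ fun i _ => iv i]
    exact Finset.sum_congr rfl fun i _ => (hK h n k T r hO i).2.2
  have eκ : ∫ η, κ η ∂(law d ρ) =
      ∑ i : Fin k, kap ρ β b h n (T i) (r i.castSucc) (r i.succ) := by
    rw [hκ, integral_finsetSum _ fun i _ => ik i]
    exact Finset.sum_congr rfl fun i _ => (hK h n k T r hO i).1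
  have eR : ∫ η, (I η + κ η + (2 * B * k + 1) * Real.sqrt (2 * κ η)) ∂(law d ρ) =
      ∫ η, I η ∂(law d ρ) + ∫ η, κ η ∂(law d ρ) +
        (2 * B * k + 1) * ∫ η, Real.sqrt (2 * κ η) ∂(law d ρ) := by
    rw [integral_add iIκ (is.const_mul _), integral_add iI iκ, integral_const_mul]
  have hs : ∫ η, Real.sqrt (2 * κ η) ∂(law d ρ) ≤
      Real.sqrt (2 * ∑ i : Fin k, kap ρ β b h n (T i) (r i.castSucc) (r i.succ)) := by
    refine Real.le_sqrt_of_sq_le ?_
    have e4 : ∀ η, Real.sqrt (2 * κ η) ^ 2 = 2 * κ η := fun η =>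
      Real.sq_sqrt (by linarith [κ0 η])
    have i4 : Integrable (fun η => Real.sqrt (2 * κ η) ^ 2) (law d ρ) := by
      simp only [e4]
      exact iκ.const_mul 2
    refine (sq_int is i4).trans (le_of_eq ?_)
    simp only [e4]
    rw [integral_const_mul, eκ]
  have hd' : ∫ η, I η ∂(law d ρ) ≤ 2 * M + 4 * B * Real.sqrt (k + 1) * δ := by
    refine (dist6 hb hE hW h hO hM hW0 hδ).trans (le_of_eq ?_)
    rw [hWd]
    ring
  have hk : 0 ≤ 2 * B * k + 1 := by positivity
  calc (∑ i : Fin k, vap ρ β b h n (T i) (r i.castSucc) (r i.succ)) /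
        (4 * B * Real.sqrt (k + 1)) = ∫ η, V η / (4 * B * Real.sqrt (k + 1)) ∂(law d ρ) := eV.symm
    _ ≤ ∫ η, (I η + κ η + (2 * B * k + 1) * Real.sqrt (2 * κ η)) ∂(law d ρ) := h3
    _ = ∫ η, I η ∂(law d ρ) + ∑ i : Fin k, kap ρ β b h n (T i) (r i.castSucc) (r i.succ) +
        (2 * B * k + 1) * ∫ η, Real.sqrt (2 * κ η) ∂(law d ρ) := by rw [eR, eκ]
    _ ≤ _ := add_le_add (add_le_add hd' le_rfl) (mul_le_mul_of_nonneg_left hs hk)

end Pol

end Pool.Agent.W_7d29a1_NT6
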