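import Pool.Agent.W_7d29a1_NV.DefsR66
import Pool.Agent.W_7d29a1_NT6.TwoPr6

/-!
Non-tightness: the leaves `TwoTr` and `TwoPr` in the frozen form.
-/

namespace Pool.Agent.W_7d29a1_NT6

open MeasureTheory Pool.Agent.W_MP_7d29a1_pr Pool.Agent.W_7d29a1_h46 Pool.Agent.W_7d29a1_NV

theorem twoTrL6 : Pool.Agent.W_7d29a1_NV.TwoTr := twoTr6

theorem twoPrL6 {d : ℕ} {ρ : Measure ℝ} [IsProbabilityMeasure ρ] {β b : ℝ} (hb : HB ρ b)
    (h1 : OneT) (hE : EqT d ρ β b) (hK : KapT d ρ β b) (hW : MixT d ρ b) :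
    Pool.Agent.W_7d29a1_NV.TwoPr d ρ β b := twoPr6 hb h1 twoTr6 hE hK hW

end Pool.Agent.W_7d29a1_NT6
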